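import Pool.Agent.J6H86.BranchPack.Horo3
import Pool.Agent.J6H86.BranchPack.DoubleSphere
import Pool.Agent.J6H86.BranchPack.Edge2
import Pool.Agent.J6H86.BranchPack.Moeb

set_option autoImplicit false

/-!
# Symmetric branched circle packings of the sphere are not unique

The double of a triangulated disc with 13 vertices, with a symmetric branch set of six simple branch
points, has two branched packings of the sphere that are not Möbius images of each other. All
definitions are in `Pool/Agent/J6H86/BranchPack/Defs.lean`.

Angles of the packing in the disc are taken at Euclidean centres. The angle sum at an interior
vertex is `2π` times the number of times that the neighbouring circles go around the circle; this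
number, and so the branch set, is the same as for angles at hyperbolic centres.
-/

namespace Pool.Agent.Results.MP_ff3433_gt.TwoSymmetricPackings

open Pool.Agent.J6H86.BranchPack

/-- `P` is invariant under the doubling reflection: the disc of the mirror image `v*` of a vertex
`v` is the mirror image of the disc of `v` in the plane `x₂ = 0`. -/
def MirrorSymmetric {V : Type} [Fintype V] [DecidableEq V] {F : Faces V}
    (P : SpherePacking (double F)) : Prop :=
  ∀ v : V, P.radius (copy F true v) = P.radius (copy F false v) ∧
    P.center (copy F true v) 0 = P.center (copy F false v) 0 ∧
    P.center (copy F true v) 1 = P.center (copy F false v) 1 ∧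
    P.center (copy F true v) 2 = -P.center (copy F false v) 2

theorem toDouble_mirror {V : Type} [Fintype V] [DecidableEq V] {F : Faces V}
    (hF : IsOrientedComplex F) (H : Half F) : MirrorSymmetric (H.toDouble hF) := by
  intro v
  have h1 : (H.toDouble hF).center (copy F true v) = mir (H.center v) := H.copy_center true v
  have h2 : (H.toDouble hF).center (copy F false v) = H.center v := H.copy_center false v
  refine ⟨rfl, ?_, ?_, ?_⟩ <;> rw [h1, h2] <;> rfl

/-- There are a triangulated closed disc `F` (with 13 vertices, whose double is a triangulated
sphere) and a branch structure `β` for it that also satisfies the edge path condition, and two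
packings of the sphere for the double of `F` with branch set `β ∪ β*`, both invariant under the
doubling reflection, such that no Möbius map (orientation preserving or not) maps one to the
other. -/
theorem result : ∃ (F : Faces (Fin 13)) (β : Multiset (Fin 13)),
    IsClosedDisc F ∧ IsSphere (double F) ∧ IsBranchStructure F β ∧ EdgePathCondition F β ∧
    ∃ P Q : SpherePacking (double F),
      P.HasBranchSet (doubleBranch F β) ∧ Q.HasBranchSet (doubleBranch F β) ∧
      MirrorSymmetric P ∧ MirrorSymmetric Q ∧ ¬ MoebiusEquivalent P Q :=
  ⟨K, B, K_disc, double_sphere, K_branch, K_edgePath, p1.D.half.toDouble K_complex,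
    p2.D.half.toDouble K_complex, p1_branch, p2_branch, toDouble_mirror K_complex _,
    toDouble_mirror K_complex _, not_equiv⟩

end Pool.Agent.Results.MP_ff3433_gt.TwoSymmetricPackings
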